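import Pool.Agent.R501.ZD6

/-!
# The Lindelöf hypothesis on average over the integers with restricted digits

The mean square of `ζ(1/2 + it)` over the points `t = α v + β`, where `v` runs through the integers with `k` digits in
base `g` whose `i`-th digit belongs to a given set `D i`, is at most `T ^ ε`, `T = g ^ k`, if the exponential sums of
the sets `D i` have a small mean absolute value. So `|ζ(1/2 + it)| ≤ T ^ ε` for almost all of these points, up to a
proportion of `C T ^ (-ε)`. The condition holds for intervals of digits from which a few digits are removed, in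
particular for one missing digit in every base `g ≥ 100`, and for intervals of `g ^ (1/2 + κ)` digits in every large base
`g`; then there are only `T ^ (1/2 + κ)` points up to `T`. For shorter intervals, of `g ^ δ` digits, the same proof gives
the mean `T ^ (1/2 - δ + κ)`.

Proof. By the approximate functional equation (`Pool.Agent.TH75.N4_AFE` and `Pool.Agent.TH110.N4_AFP` of the starting
files) one has to bound the mean square of Dirichlet polynomials of length `N ≤ T ^ (1/2 + η)`. The double sum over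
`m, n` in a dyadic interval is a sum of values of the exponential sum of the set of integers at the points
`α log(m / n) / 2π`. The pairs with greatest common divisor `d` give points which are `c (d / M) ^ 2`-spaced; so only
those digits `i` are used for which `g ^ i` is at most about `(M / d) ^ 2`, and their part of the exponential sum has a
small mean absolute value: the sum over these pairs is at most `C √g (M / d)` times the number of the integers.
-/

set_option autoImplicit false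

namespace Pool.Agent.Results.MP_4e5e8a_nt.RestrictedDigits

open Finset

/-- `|ζ(1/2 + it)|` -/
noncomputable def Z (t : ℝ) : ℝ := ‖riemannZeta (1 / 2 + t * Complex.I)‖

/-- the integer with the digits `a 0, …, a (k - 1)` in base `g` (the units first) -/
def value (g : ℕ) {k : ℕ} (a : Fin k → ℕ) : ℕ := ∑ i : Fin k, a i * g ^ (i : ℕ)

/-- the exponential sum `∑ exp(2πi d θ)` over the elements `d` of `D` -/
noncomputable def expSum (D : Finset ℕ) (θ : ℝ) : ℂ :=
  ∑ d ∈ D, Complex.exp (((2 * Real.pi * (d * θ) : ℝ) : ℂ) * Complex.I)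

/-- The sum over `r < g` of upper bounds `u r` for the exponential sum of `D` on the interval `[r / g, (r + 1) / g]` is
at most `lam √g |D|`, for suitable upper bounds. -/
def Flat (g : ℕ) (lam : ℝ) (D : Finset ℕ) : Prop :=
  ∃ u : ℕ → ℝ, (∀ r < g, ∀ y : ℝ, 0 ≤ y → y ≤ 1 → ‖expSum D ((r + y) / g)‖ ≤ u r) ∧
    ∑ r ∈ range g, u r ≤ lam * √g * D.card

/-- `D` is an interval `{s, …, s + l - 1}` of digits from which the elements of a set `R` are removed, and
`lam |D|` is at least `√g (|R| + 3 + log g)`. -/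
def NearInterval (g : ℕ) (lam : ℝ) (D : Finset ℕ) : Prop :=
  ∃ (s l : ℕ) (R : Finset ℕ), s + l ≤ g ∧ D = Ico s (s + l) \ R ∧ √g * (R.card + 3 + Real.log g) ≤ lam * D.card

open Classical in
/-- (1) Let `g ≥ 2`, `α > 0`, `β ≥ 0` and `ε > 0`. There is `C` such that for all `k`, all sets of digits
`D 0, …, D (k - 1) ⊆ {0, …, g - 1}` and all `lam i ≥ 1` with `Flat g (lam i) (D i)`: the mean of `|ζ(1/2 + it)| ^ 2` over
all the `t = α v + β` such that `v < g ^ k` has its digit number `i` in `D i`, for all `i`, is at most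
`C g ^ (ε k) Π`, where `Π` is the product of the numbers `lam i`; and `|ζ(1/2 + it)| > g ^ (ε k) √Π` for a proportion of at
most `C g ^ (-ε k)` of these `t`.

(2) `NearInterval g lam D` implies `Flat g lam D`.

(3) For `g ≥ 100` all sets of all digits but one are of the kind `NearInterval g 1`.

(4) For every `κ > 0` and all large `g` an interval of `l` digits is of the kind `NearInterval g lam` as soon as
`g ^ (1/2 + κ) ≤ lam l`; in particular, of the kind `NearInterval g 1` if it has at least `g ^ (1/2 + κ)` digits. -/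
theorem result :
    (∀ g : ℕ, 2 ≤ g → ∀ α β ε : ℝ, 0 < α → 0 ≤ β → 0 < ε → ∃ C : ℝ, ∀ (k : ℕ) (D : Fin k → Finset ℕ) (lam : Fin k → ℝ),
      (∀ i, 1 ≤ lam i ∧ D i ⊆ range g ∧ Flat g (lam i) (D i)) →
      ∑ a ∈ Fintype.piFinset D, Z (α * value g a + β) ^ 2 ≤
        C * (g : ℝ) ^ (ε * k) * (∏ i, lam i) * (Fintype.piFinset D).card ∧
      (((Fintype.piFinset D).filter fun a => (g : ℝ) ^ (ε * k) * √(∏ i, lam i) < Z (α * value g a + β)).card : ℝ) ≤
        C * (g : ℝ) ^ (-(ε * k)) * (Fintype.piFinset D).card) ∧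
    (∀ (g : ℕ) (lam : ℝ) (D : Finset ℕ), 2 ≤ g → NearInterval g lam D → Flat g lam D) ∧
    (∀ g a : ℕ, 100 ≤ g → NearInterval g 1 (range g \ {a})) ∧
    (∀ κ : ℝ, 0 < κ → ∃ g₀ : ℕ, ∀ g : ℕ, g₀ ≤ g → ∀ (s l : ℕ) (lam : ℝ), s + l ≤ g → (g : ℝ) ^ (1 / 2 + κ) ≤ lam * l →
      NearInterval g lam (Ico s (s + l))) := by
  refine ⟨fun g hg α β ε hα hβ hε => ?_, fun g lam D hg h => Pool.Agent.R501.ZD.flat_of_near hg h,
    fun g a hg => Pool.Agent.R501.ZD.near_missing hg a, fun κ hκ => Pool.Agent.R501.ZD.near_interval hκ⟩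
  obtain ⟨C, hC, h⟩ := Pool.Agent.R501.ZD.main_sum g hg α β ε hα hβ hε
  refine ⟨C, fun k D lam hD => ?_⟩
  have hg0 : (0 : ℝ) < g := by exact_mod_cast (by omega : 0 < g)
  obtain ⟨D', hD'⟩ : ∃ D' : ℕ → Finset ℕ, D' = fun i => if hi : i < k then D ⟨i, hi⟩ else ∅ := ⟨_, rfl⟩
  obtain ⟨lam', hlam'⟩ : ∃ lam' : ℕ → ℝ, lam' = fun i => if hi : i < k then lam ⟨i, hi⟩ else 1 := ⟨_, rfl⟩
  have e1 : (fun i : Fin k => D' i) = D := by
    funext i
    rw [hD']
    simp
  have e3 : ∀ i : Fin k, lam' i = lam i := by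
    intro i
    rw [hlam']
    simp
  have hl1 : ∀ i, 1 ≤ lam' i := by
    intro i
    rw [hlam']
    simp only
    split_ifs with hi
    · exact (hD ⟨i, hi⟩).1
    · exact le_rfl
  have h1 := h k D' lam' hl1 (fun i hi => by
    have e2 : D' i = D ⟨i, hi⟩ := by rw [hD']; simp [hi]
    have e4 : lam' i = lam ⟨i, hi⟩ := e3 ⟨i, hi⟩
    rw [e2, e4]
    exact (hD ⟨i, hi⟩).2)
  obtain ⟨Pi0, hPi⟩ : ∃ Pi0 : ℝ, Pi0 = ∏ i, lam i := ⟨_, rfl⟩
  have hPi1 : 0 < Pi0 := by
    rw [hPi]
    exact prod_pos fun i _ => by have := (hD i).1; linarith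
  have hwt : Pool.Agent.R501.ZD.wt lam' D' k = Pi0 * ((Fintype.piFinset D).card : ℝ) := by
    unfold Pool.Agent.R501.ZD.wt
    rw [prod_mul_distrib, ← Pool.Agent.R501.ZD.card_strings, hPi]
    unfold Pool.Agent.R501.ZD.strings
    rw [e1, ← Fin.prod_univ_eq_prod_range lam' k]
    congr 1
    exact prod_congr rfl fun i _ => e3 i
  rw [hwt] at h1
  unfold Pool.Agent.R501.ZD.strings at h1
  rw [e1] at h1
  rw [← hPi]
  have h2 : ∑ a ∈ Fintype.piFinset D, Z (α * value g a + β) ^ 2 ≤
      C * (g : ℝ) ^ (ε * k) * Pi0 * (Fintype.piFinset D).card := by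
    rw [mul_assoc (C * (g : ℝ) ^ (ε * k))]
    exact h1
  refine ⟨h2, ?_⟩
  have hG : 0 < (g : ℝ) ^ (ε * k) := by positivity
  have hs0 : 0 ≤ √Pi0 := Real.sqrt_nonneg _
  have hss : √Pi0 ^ 2 = Pi0 := Real.sq_sqrt hPi1.le
  obtain ⟨E, hE⟩ : ∃ E, E = (Fintype.piFinset D).filter fun a => (g : ℝ) ^ (ε * k) * √Pi0 < Z (α * value g a + β) := ⟨_, rfl⟩
  have h3 : (E.card : ℝ) * (((g : ℝ) ^ (ε * k)) ^ 2 * Pi0) ≤ C * (g : ℝ) ^ (ε * k) * Pi0 * (Fintype.piFinset D).card := by
    refine le_trans ?_ h2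
    calc (E.card : ℝ) * (((g : ℝ) ^ (ε * k)) ^ 2 * Pi0) = ∑ a ∈ E, ((g : ℝ) ^ (ε * k) * √Pi0) ^ 2 := by
          rw [sum_const, nsmul_eq_mul, mul_pow, hss]
      _ ≤ ∑ a ∈ E, Z (α * value g a + β) ^ 2 := by
          apply sum_le_sum
          intro a ha
          rw [hE, mem_filter] at ha
          exact pow_le_pow_left₀ (mul_nonneg hG.le hs0) ha.2.le 2
      _ ≤ _ := sum_le_sum_of_subset_of_nonneg (by rw [hE]; exact filter_subset _ _) fun _ _ _ => sq_nonneg _
  have h4 : (g : ℝ) ^ (-(ε * k)) = 1 / (g : ℝ) ^ (ε * k) := by rw [Real.rpow_neg hg0.le, one_div]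
  have h5 : (E.card : ℝ) ≤ C * (g : ℝ) ^ (-(ε * k)) * (Fintype.piFinset D).card := by
    rw [h4]
    have h6 : C * (1 / (g : ℝ) ^ (ε * k)) * ((Fintype.piFinset D).card : ℝ) =
        (C * (g : ℝ) ^ (ε * k) * Pi0 * ((Fintype.piFinset D).card : ℝ)) / (((g : ℝ) ^ (ε * k)) ^ 2 * Pi0) := by
      field_simp
    rw [h6, le_div_iff₀ (by positivity)]
    exact h3
  rw [hE] at h5
  exact h5

end Pool.Agent.Results.MP_4e5e8a_nt.RestrictedDigits
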